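import Pool.Agent.helper78.WB.SpecIIa

/-!
# Project wb, Part IIa, row MU: few vectors with the same determinant
-/

set_option autoImplicit false

namespace Pool.Agent.WB

/-- the case of a fixed value of the determinant -/
theorem MU_sign (N : ℕ) (ξ δ : ℝ) (η : V3) (c : ℤ) (A : Finset V3) (hN : 1 ≤ N) (hδ : 0 ≤ δ)
    (hB : ∀ ζ ∈ A, Box N ξ δ ζ) (hη : IsCoprime (η 0) (η 1))
    (hm : (N : ℝ) ^ (ξ - δ) ≤ max |((η 0 : ℤ) : ℝ)| |((η 1 : ℤ) : ℝ)|)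
    (hc : ∀ ζ ∈ A, dt ζ η = c)
    (hi : ∀ ζ ∈ A, ∀ ζ' ∈ A, ζ 0 = ζ' 0 → ζ 1 = ζ' 1 → ζ = ζ') :
    (A.card : ℝ) ≤ 5 * (N : ℝ) ^ (2 * δ) := by
  have hN' : (1 : ℝ) ≤ N := by exact_mod_cast hN
  have hN0 : (0 : ℝ) < N := by linarith
  have h1 : (1 : ℝ) ≤ (N : ℝ) ^ (2 * δ) := Real.one_le_rpow hN' (by linarith)
  rcases A.eq_empty_or_nonempty with hA | ⟨z, hz⟩
  · subst hA
    rw [Finset.card_empty]
    push_cast
    linarith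
  obtain ⟨a, b, hab⟩ := hη
  set M : ℕ := ⌊2 * (N : ℝ) ^ (2 * δ)⌋₊ with hM
  have hMle : (M : ℝ) ≤ 2 * (N : ℝ) ^ (2 * δ) := Nat.floor_le (by linarith)
  -- the parameter
  let t : V3 → ℤ := fun ζ => a * (ζ 0 - z 0) + b * (ζ 1 - z 1)
  have hdt : ∀ ζ ∈ A, (ζ 0 - z 0) * η 1 = η 0 * (ζ 1 - z 1) := by
    intro ζ hζ
    have e1 := hc ζ hζ
    have e2 := hc z hz
    unfold dt at e1 e2
    linear_combination e1 - e2
  have ht0 : ∀ ζ ∈ A, t ζ * η 0 = ζ 0 - z 0 := by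
    intro ζ hζ
    have e := hdt ζ hζ
    show (a * (ζ 0 - z 0) + b * (ζ 1 - z 1)) * η 0 = ζ 0 - z 0
    linear_combination (ζ 0 - z 0) * hab - b * e
  have ht1 : ∀ ζ ∈ A, t ζ * η 1 = ζ 1 - z 1 := by
    intro ζ hζ
    have e := hdt ζ hζ
    show (a * (ζ 0 - z 0) + b * (ζ 1 - z 1)) * η 1 = ζ 1 - z 1
    linear_combination (ζ 1 - z 1) * hab + a * e
  have hinj : ∀ ζ ∈ A, ∀ ζ' ∈ A, t ζ = t ζ' → ζ = ζ' := by
    intro ζ hζ ζ' hζ' h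
    refine hi ζ hζ ζ' hζ' ?_ ?_
    · have e1 := ht0 ζ hζ
      have e2 := ht0 ζ' hζ'
      rw [h] at e1
      linarith
    · have e1 := ht1 ζ hζ
      have e2 := ht1 ζ' hζ'
      rw [h] at e1
      linarith
  have hbd : ∀ ζ ∈ A, t ζ ∈ Finset.Icc (-(M : ℤ)) (M : ℤ) := by
    intro ζ hζ
    have hp : 0 < (N : ℝ) ^ (ξ - δ) := Real.rpow_pos_of_pos hN0 _
    have key : |((t ζ : ℤ) : ℝ)| * max |((η 0 : ℤ) : ℝ)| |((η 1 : ℤ) : ℝ)| ≤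
        2 * (N : ℝ) ^ (ξ + δ) := by
      obtain ⟨b1, b2, -, -⟩ := hB ζ hζ
      obtain ⟨c1, c2, -, -⟩ := hB z hz
      rcases le_total |((η 0 : ℤ) : ℝ)| |((η 1 : ℤ) : ℝ)| with hle | hle
      · rw [max_eq_right hle, ← abs_mul]
        have e : ((t ζ : ℤ) : ℝ) * ((η 1 : ℤ) : ℝ) = ((ζ 1 : ℤ) : ℝ) - ((z 1 : ℤ) : ℝ) := by
          exact_mod_cast ht1 ζ hζ
        rw [e]
        have := abs_sub ((ζ 1 : ℤ) : ℝ) ((z 1 : ℤ) : ℝ)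
        linarith
      · rw [max_eq_left hle, ← abs_mul]
        have e : ((t ζ : ℤ) : ℝ) * ((η 0 : ℤ) : ℝ) = ((ζ 0 : ℤ) : ℝ) - ((z 0 : ℤ) : ℝ) := by
          exact_mod_cast ht0 ζ hζ
        rw [e]
        have := abs_sub ((ζ 0 : ℤ) : ℝ) ((z 0 : ℤ) : ℝ)
        linarith
    have h2 : |((t ζ : ℤ) : ℝ)| * (N : ℝ) ^ (ξ - δ) ≤ 2 * (N : ℝ) ^ (ξ + δ) :=
      (mul_le_mul_of_nonneg_left hm (abs_nonneg _)).trans key
    have h3 : (N : ℝ) ^ (ξ + δ) = (N : ℝ) ^ (2 * δ) * (N : ℝ) ^ (ξ - δ) := by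
      rw [← Real.rpow_add hN0, show 2 * δ + (ξ - δ) = ξ + δ by ring]
    rw [h3, ← mul_assoc] at h2
    have h4 : |((t ζ : ℤ) : ℝ)| ≤ 2 * (N : ℝ) ^ (2 * δ) := le_of_mul_le_mul_right h2 hp
    have h5 : ((t ζ).natAbs : ℝ) ≤ 2 * (N : ℝ) ^ (2 * δ) := by
      have : ((t ζ).natAbs : ℝ) = |((t ζ : ℤ) : ℝ)| := by
        rw [← Int.cast_abs, Int.abs_eq_natAbs]
        simp
      rw [this]
      exact h4
    have h6 : (t ζ).natAbs ≤ M := Nat.le_floor h5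
    rw [Finset.mem_Icc]
    omega
  have hcard : A.card ≤ (Finset.Icc (-(M : ℤ)) (M : ℤ)).card :=
    Finset.card_le_card_of_injOn t hbd (fun ζ hζ ζ' hζ' h => hinj ζ hζ ζ' hζ' h)
  rw [Int.card_Icc] at hcard
  have h7 : A.card ≤ 2 * M + 1 := by omega
  have h8 : (A.card : ℝ) ≤ 2 * M + 1 := by exact_mod_cast h7
  linarith

theorem MU : MU_stmt := by
  intro N ξ δ η ℓ A hN hδ hB hη hm hℓ hi
  have hsub : A ⊆ A.filter (fun ζ => dt ζ η = (ℓ : ℤ)) ∪ A.filter (fun ζ => dt ζ η = -(ℓ : ℤ)) := by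
    intro ζ hζ
    rw [Finset.mem_union, Finset.mem_filter, Finset.mem_filter]
    have := hℓ ζ hζ
    rcases Int.natAbs_eq (dt ζ η) with h | h
    · left
      rw [this] at h
      exact ⟨hζ, h⟩
    · right
      rw [this] at h
      exact ⟨hζ, h⟩
  have h1 := MU_sign N ξ δ η (ℓ : ℤ) (A.filter (fun ζ => dt ζ η = (ℓ : ℤ))) hN hδ
    (fun ζ hζ => hB ζ (Finset.mem_filter.1 hζ).1) hη hm (fun ζ hζ => (Finset.mem_filter.1 hζ).2)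
    (fun ζ hζ ζ' hζ' => hi ζ (Finset.mem_filter.1 hζ).1 ζ' (Finset.mem_filter.1 hζ').1)
  have h2 := MU_sign N ξ δ η (-(ℓ : ℤ)) (A.filter (fun ζ => dt ζ η = -(ℓ : ℤ))) hN hδ
    (fun ζ hζ => hB ζ (Finset.mem_filter.1 hζ).1) hη hm (fun ζ hζ => (Finset.mem_filter.1 hζ).2)
    (fun ζ hζ ζ' hζ' => hi ζ (Finset.mem_filter.1 hζ).1 ζ' (Finset.mem_filter.1 hζ').1)
  have h3 := (Finset.card_le_card hsub).trans (Finset.card_union_le _ _)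
  have h4 : (A.card : ℝ) ≤ (A.filter (fun ζ => dt ζ η = (ℓ : ℤ))).card +
      (A.filter (fun ζ => dt ζ η = -(ℓ : ℤ))).card := by exact_mod_cast h3
  linarith

end Pool.Agent.WB
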